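import Mathlib
import Pool.Agent.N178.HW.Defs

/-!
# The weights of a stable space are permuted by the involutions (statement `S_SWAP`)

For an involution `τ` which preserves the classes and commutes with the duality there is a matrix
`Y` in `GR` with `Y x (τ x) = ± i`, `Y ^ 3 = - Y` and `1 + Y + Y ^ 2` a monomial matrix for the
permutation `τ`. A space stable under `act Y` is stable under the tensor power of
`1 + Y + Y ^ 2 = exp (π / 2 * Y)`: decompose a tensor into eigenvectors of `act Y` and use Lagrange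
interpolation.
-/

set_option linter.unusedSectionVars false

namespace Pool.Agent.N76.GHC

open Finset Matrix Pool.Agent.W437.HC Pool.Agent.V1168.GH Pool.Agent.N178.HW

noncomputable section

section spectral

variable {κ R : Type} [Fintype κ] [DecidableEq κ] [Fintype R] [DecidableEq R]

/-- Polynomials of an operator on a sum of eigenvectors. -/
theorem poly_mem {V A : Type} [AddCommGroup V] [Module ℂ V] [Fintype A] (L : V →ₗ[ℂ] V)
    (U : Submodule ℂ V) (hU : ∀ u ∈ U, L u ∈ U) (g : A → V) (s : A → ℂ)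
    (hg : ∀ a, L (g a) = s a • g a) (hf : ∑ a, g a ∈ U) (p : Polynomial ℂ) :
    ∑ a, p.eval (s a) • g a ∈ U := by
  induction p using Polynomial.induction_on with
  | C c =>
    simp only [Polynomial.eval_C]
    rw [← smul_sum]
    exact U.smul_mem c hf
  | add p q hp hq =>
    simp only [Polynomial.eval_add, add_smul, sum_add_distrib]
    exact U.add_mem hp hq
  | monomial n c h =>
    have h1 := hU _ h
    rw [map_sum] at h1
    have h2 : ∑ a, L ((Polynomial.C c * Polynomial.X ^ n).eval (s a) • g a) =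
        ∑ a, (Polynomial.C c * Polynomial.X ^ (n + 1)).eval (s a) • g a := by
      refine sum_congr rfl fun a _ => ?_
      rw [map_smul, hg, smul_smul]
      congr 1
      simp only [Polynomial.eval_mul, Polynomial.eval_C, Polynomial.eval_pow, Polynomial.eval_X]
      ring
    rw [h2] at h1
    exact h1

/-- Functions of an operator on a sum of eigenvectors. -/
theorem fun_mem {V A : Type} [AddCommGroup V] [Module ℂ V] [Fintype A] (L : V →ₗ[ℂ] V)
    (U : Submodule ℂ V) (hU : ∀ u ∈ U, L u ∈ U) (g : A → V) (s : A → ℂ)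
    (hg : ∀ a, L (g a) = s a • g a) (hf : ∑ a, g a ∈ U) (F : ℂ → ℂ) :
    ∑ a, F (s a) • g a ∈ U := by
  classical
  have h := poly_mem L U hU g s hg hf (Lagrange.interpolate (univ.image s) id F)
  have h2 : ∀ a, (Lagrange.interpolate (univ.image s) id F).eval (s a) = F (s a) := fun a => by
    have := Lagrange.eval_interpolate_at_node (s := univ.image s) (v := id) (r := F)
      (Set.injOn_id _) (mem_image_of_mem s (mem_univ a))
    exact this
  simp only [h2] at h
  exact h

/-- The action of a family of matrices on the slots. -/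
def Ts (A : κ → Matrix R R ℂ) (f : (κ → R) → ℂ) : (κ → R) → ℂ :=
  fun z => ∑ w : κ → R, (∏ k, A k (w k) (z k)) * f w

/-- The action as a linear map. -/
def actM (Y : Matrix R R ℂ) : ((κ → R) → ℂ) →ₗ[ℂ] ((κ → R) → ℂ) where
  toFun f := act Y f
  map_add' f g := act_add_right Y f g
  map_smul' a f := act_smul_right a Y f

theorem sum_Ts {ι : Type} [Fintype ι] [DecidableEq ι] (E : ι → Matrix R R ℂ) (μ : ι → ℂ)
    (f : (κ → R) → ℂ) :
    ∑ ε : κ → ι, (∏ k, μ (ε k)) • Ts (fun k => E (ε k)) f = Ts (fun _ => ∑ i, μ i • E i) f := by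
  funext z
  rw [Finset.sum_apply]
  simp only [Pi.smul_apply, smul_eq_mul, Ts, mul_sum]
  rw [sum_comm]
  refine sum_congr rfl fun w _ => ?_
  have h : ∀ k : κ, (∑ i, μ i • E i) (w k) (z k) = ∑ i, μ i * E i (w k) (z k) := fun k => by
    rw [Matrix.sum_apply]
    exact sum_congr rfl fun i _ => by rw [Matrix.smul_apply, smul_eq_mul]
  simp only [h]
  rw [Finset.prod_univ_sum, sum_mul, Fintype.piFinset_univ]
  refine sum_congr rfl fun ε _ => ?_
  rw [prod_mul_distrib]
  ring

theorem Ts_one (f : (κ → R) → ℂ) : Ts (fun _ => (1 : Matrix R R ℂ)) f = f := by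
  funext z
  unfold Ts
  rw [sum_eq_single z]
  · simp
  · intro w _ hw
    obtain ⟨k, hk⟩ : ∃ k, w k ≠ z k := by
      by_contra h
      push Not at h
      exact hw (funext h)
    have h0 : ∏ k, (1 : Matrix R R ℂ) (w k) (z k) = 0 :=
      prod_eq_zero (mem_univ k) (Matrix.one_apply_ne hk)
    show (∏ k, (1 : Matrix R R ℂ) (w k) (z k)) * f w = 0
    rw [h0, zero_mul]
  · intro h
    exact absurd (mem_univ _) h

theorem act_Ts {ι : Type} [Fintype ι] [DecidableEq ι] (E : ι → Matrix R R ℂ) (l : ι → ℂ)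
    (Y : Matrix R R ℂ) (hE : ∀ i, E i * Y = l i • E i) (ε : κ → ι) (f : (κ → R) → ℂ) :
    act Y (Ts (fun k => E (ε k)) f) = (∑ k, l (ε k)) • Ts (fun k => E (ε k)) f := by
  funext z
  simp only [act, Ts, Pi.smul_apply, smul_eq_mul]
  rw [sum_mul]
  refine sum_congr rfl fun k _ => ?_
  simp only [mul_sum]
  rw [sum_comm]
  refine sum_congr rfl fun w _ => ?_
  have h1 : ∀ j : R, ∏ m, E (ε m) (w m) (Function.update z k j m) =
      E (ε k) (w k) j * ∏ m ∈ univ.erase k, E (ε m) (w m) (z m) := by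
    intro j
    rw [← mul_prod_erase univ _ (mem_univ k), Function.update_self]
    congr 1
    refine prod_congr rfl fun m hm => ?_
    rw [Function.update_of_ne (ne_of_mem_erase hm)]
  simp only [h1]
  rw [← mul_prod_erase univ (fun m => E (ε m) (w m) (z m)) (mem_univ k)]
  have h2 : ∑ j, E (ε k) (w k) j * Y j (z k) = l (ε k) * E (ε k) (w k) (z k) := by
    have := congrFun (congrFun (hE (ε k)) (w k)) (z k)
    rw [Matrix.mul_apply, Matrix.smul_apply, smul_eq_mul] at this
    exact this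
  calc ∑ j, Y j (z k) * (E (ε k) (w k) j * (∏ m ∈ univ.erase k, E (ε m) (w m) (z m)) * f w)
      = (∑ j, E (ε k) (w k) j * Y j (z k)) *
          ((∏ m ∈ univ.erase k, E (ε m) (w m) (z m)) * f w) := by
        rw [sum_mul]
        exact sum_congr rfl fun j _ => by ring
    _ = l (ε k) * (E (ε k) (w k) (z k) * (∏ m ∈ univ.erase k, E (ε m) (w m) (z m)) * f w) := by
        rw [h2]
        ring

/-- A space stable under `act Y` is stable under the tensor power of `exp (π / 2 * Y)`, for
`Y ^ 3 = - Y`. -/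
theorem Ts_mem (Y : Matrix R R ℂ) (hY : Y * Y * Y = -Y) (U : Submodule ℂ ((κ → R) → ℂ))
    (hU : ∀ u ∈ U, act Y u ∈ U) (f : (κ → R) → ℂ) (hf : f ∈ U) :
    Ts (fun _ => 1 + Y + Y * Y) f ∈ U := by
  classical
  let E : Fin 3 → Matrix R R ℂ := ![1 + Y * Y, -((1 / 2 : ℂ) • (Y * Y + Complex.I • Y)),
    -((1 / 2 : ℂ) • (Y * Y - Complex.I • Y))]
  let l : Fin 3 → ℂ := ![0, Complex.I, -Complex.I]
  let F : ℂ → ℂ := fun t => Complex.exp (Real.pi / 2 * t)
  have hI : Complex.I * Complex.I = -1 := Complex.I_mul_I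
  have hEY : ∀ i, E i * Y = l i • E i := by
    intro i
    fin_cases i
    · show (1 + Y * Y) * Y = (0 : ℂ) • (1 + Y * Y)
      rw [zero_smul, add_mul, one_mul, hY, add_neg_cancel]
    · show -((1 / 2 : ℂ) • (Y * Y + Complex.I • Y)) * Y =
        Complex.I • -((1 / 2 : ℂ) • (Y * Y + Complex.I • Y))
      have h1 : Complex.I • -((1 / 2 : ℂ) • (Y * Y + Complex.I • Y)) =
        -((1 / 2 : ℂ) • (Complex.I • (Y * Y) + (Complex.I * Complex.I) • Y)) := by module
      rw [h1, hI, neg_mul, smul_mul_assoc, add_mul, hY, smul_mul_assoc]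
      module
    · show -((1 / 2 : ℂ) • (Y * Y - Complex.I • Y)) * Y =
        -Complex.I • -((1 / 2 : ℂ) • (Y * Y - Complex.I • Y))
      have h1 : -Complex.I • -((1 / 2 : ℂ) • (Y * Y - Complex.I • Y)) =
        (1 / 2 : ℂ) • (Complex.I • (Y * Y) - (Complex.I * Complex.I) • Y) := by module
      rw [h1, hI, neg_mul, smul_mul_assoc, sub_mul, hY, smul_mul_assoc]
      module
  have hE1 : ∑ i, (1 : ℂ) • E i = 1 := by
    rw [Fin.sum_univ_three]
    show (1 : ℂ) • (1 + Y * Y) + (1 : ℂ) • -((1 / 2 : ℂ) • (Y * Y + Complex.I • Y)) +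
      (1 : ℂ) • -((1 / 2 : ℂ) • (Y * Y - Complex.I • Y)) = 1
    module
  have hEn : ∑ i, F (l i) • E i = 1 + Y + Y * Y := by
    rw [Fin.sum_univ_three]
    have f0 : F (l 0) = 1 := by
      show Complex.exp (Real.pi / 2 * 0) = 1
      rw [mul_zero, Complex.exp_zero]
    have f1 : F (l 1) = Complex.I := by
      show Complex.exp (Real.pi / 2 * Complex.I) = Complex.I
      exact Complex.exp_pi_div_two_mul_I
    have f2 : F (l 2) = -Complex.I := by
      show Complex.exp (Real.pi / 2 * -Complex.I) = -Complex.I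
      rw [mul_neg, ← neg_mul, ← neg_div]
      exact Complex.exp_neg_pi_div_two_mul_I
    rw [f0, f1, f2]
    show (1 : ℂ) • (1 + Y * Y) + Complex.I • -((1 / 2 : ℂ) • (Y * Y + Complex.I • Y)) +
      (-Complex.I) • -((1 / 2 : ℂ) • (Y * Y - Complex.I • Y)) = 1 + Y + Y * Y
    have : (1 : ℂ) • (1 + Y * Y) + Complex.I • -((1 / 2 : ℂ) • (Y * Y + Complex.I • Y)) +
      (-Complex.I) • -((1 / 2 : ℂ) • (Y * Y - Complex.I • Y)) =
      1 + Y * Y - (Complex.I * Complex.I) • Y := by module
    rw [this, hI, neg_one_smul, sub_neg_eq_add, add_assoc, add_comm (Y * Y) Y, ← add_assoc]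
  have hsum : ∑ ε : κ → Fin 3, Ts (fun k => E (ε k)) f = f := by
    have h := sum_Ts (κ := κ) E (fun _ => 1) f
    simp only [prod_const_one, one_smul] at h
    have h1 : ∑ i, E i = 1 := by simpa only [one_smul] using hE1
    rw [h1, Ts_one] at h
    exact h
  have h := fun_mem (actM Y) U hU (fun ε : κ → Fin 3 => Ts (fun k => E (ε k)) f)
    (fun ε => ∑ k, l (ε k)) (fun ε => act_Ts E l Y hEY ε f) (by rw [hsum]; exact hf) F
  have h2 : ∀ ε : κ → Fin 3, F (∑ k, l (ε k)) = ∏ k, F (l (ε k)) := by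
    intro ε
    show Complex.exp (Real.pi / 2 * ∑ k, l (ε k)) = ∏ k, Complex.exp (Real.pi / 2 * l (ε k))
    rw [mul_sum, Complex.exp_sum]
  simp only [h2] at h
  rw [sum_Ts E (fun i => F (l i)) f, hEn] at h
  exact h

end spectral

section swap

variable {κ R P : Type} [Fintype κ] [DecidableEq κ] [Fintype R] [DecidableEq R] [DecidableEq P]
  {cls : R → P} {b : P → P} {inv : R → R} {jj : R → ℂ} {X : R → Prop}
  {T : Submodule ℂ (P → ℂ)} {τ : R → R}

theorem jsq (hF : Fr cls b inv jj X) (x : R) : jj x * jj x = 1 := by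
  rcases hF.j1 x with h | h <;> rw [h] <;> ring

/-- The signs. -/
def rho (jj : R → ℂ) (τ : R → R) (x : R) : ℂ :=
  if jj x = jj (τ x) then jj x else 1

/-- The matrix. -/
def YY (jj : R → ℂ) (τ : R → R) : Matrix R R ℂ :=
  fun x y => if y = τ x ∧ y ≠ x then Complex.I * rho jj τ x else 0

theorem rho_tau (hτ : ∀ x, τ (τ x) = x) (x : R) : rho jj τ (τ x) = rho jj τ x := by
  unfold rho
  rw [hτ]
  by_cases h : jj x = jj (τ x)
  · rw [if_pos h, if_pos h.symm, h]
  · rw [if_neg h, if_neg (Ne.symm h)]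

theorem rho_sq (hF : Fr cls b inv jj X) (x : R) : rho jj τ x * rho jj τ x = 1 := by
  unfold rho
  split_ifs
  · exact jsq hF x
  · ring

theorem rho_inv (hF : Fr cls b inv jj X) (hτi : ∀ x, τ (inv x) = inv (τ x)) (x : R) :
    rho jj τ (inv x) = -(jj x * jj (τ x) * rho jj τ x) := by
  unfold rho
  rw [hτi, hF.jn, hF.jn]
  by_cases h : jj x = jj (τ x)
  · rw [if_pos h, if_pos (by rw [h]), ← h, jsq hF, one_mul]
  · rw [if_neg h, if_neg (fun h' => h (neg_injective h')), mul_one]
    rcases hF.j1 x with h1 | h1 <;> rcases hF.j1 (τ x) with h2 | h2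
    · exact absurd (h1.trans h2.symm) h
    · rw [h1, h2]; ring
    · rw [h1, h2]; ring
    · exact absurd (h1.trans h2.symm) h

theorem YY_mem (hF : Fr cls b inv jj X) (hτ : ∀ x, τ (τ x) = x)
    (hτi : ∀ x, τ (inv x) = inv (τ x)) (hτc : ∀ x, cls (τ x) = cls x) :
    YY jj τ ∈ GR cls inv jj T := by
  have hinj : ∀ x y, inv x = inv y → x = y := fun x y h => by rw [← hF.ii x, h, hF.ii]
  refine ⟨?_, ?_, ?_⟩
  · intro x y h
    unfold YY
    rw [if_neg]
    rintro ⟨rfl, -⟩
    exact h (hτc x).symm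
  · intro x y
    unfold YY
    by_cases h : y = τ x ∧ y ≠ x
    · obtain ⟨rfl, h2⟩ := h
      rw [if_pos ⟨by rw [hτi, hτ], fun h' => h2 (hinj _ _ h').symm⟩, if_pos ⟨rfl, h2⟩,
        rho_inv hF hτi, rho_tau hτ, hτ]
      ring
    · rw [if_neg h, if_neg, mul_zero, neg_zero]
      rintro ⟨h1, h2⟩
      apply h
      rw [hτi] at h1
      have h3 := hinj _ _ h1
      refine ⟨by rw [h3, hτ], fun h' => h2 (by rw [h'])⟩
  · have : (fun p => ∑ x ∈ univ.filter (fun x => cls x = p), YY jj τ x x) = 0 := by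
      funext p
      refine sum_eq_zero fun x _ => ?_
      unfold YY
      rw [if_neg]
      rintro ⟨-, h⟩
      exact h rfl
    show (fun p => ∑ x ∈ univ.filter (fun x => cls x = p), YY jj τ x x) ∈ T
    rw [this]
    exact T.zero_mem

theorem YY_mul (hF : Fr cls b inv jj X) (hτ : ∀ x, τ (τ x) = x) (x y : R) :
    (YY jj τ * YY jj τ) x y = if x = y ∧ τ x ≠ x then -1 else 0 := by
  rw [Matrix.mul_apply, sum_eq_single (τ x)]
  · unfold YY
    rw [hτ, rho_tau hτ]
    by_cases h : x = y ∧ τ x ≠ x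
    · obtain ⟨rfl, h2⟩ := h
      rw [if_pos ⟨rfl, h2⟩, if_pos ⟨rfl, Ne.symm h2⟩, if_pos ⟨rfl, h2⟩]
      have h3 := rho_sq (τ := τ) hF x
      have hI : Complex.I * Complex.I = -1 := Complex.I_mul_I
      calc Complex.I * rho jj τ x * (Complex.I * rho jj τ x)
          = (Complex.I * Complex.I) * (rho jj τ x * rho jj τ x) := by ring
        _ = -1 := by rw [h3, hI, mul_one]
    · rw [if_neg h]
      by_cases h2 : τ x = x
      · rw [if_neg (fun h3 => h3.2 h2), zero_mul]
      · rw [if_neg (c := y = x ∧ y ≠ τ x), mul_zero]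
        rintro ⟨rfl, -⟩
        exact h ⟨rfl, h2⟩
  · intro w _ hw
    unfold YY
    rw [if_neg (fun h => hw h.1), zero_mul]
  · intro h
    exact absurd (mem_univ _) h

theorem YY_cube (hF : Fr cls b inv jj X) (hτ : ∀ x, τ (τ x) = x) :
    YY jj τ * YY jj τ * YY jj τ = -YY jj τ := by
  funext x y
  rw [Matrix.mul_apply, sum_eq_single x, YY_mul hF hτ, Matrix.neg_apply]
  · by_cases h : τ x = x
    · rw [if_neg (fun h2 => h2.2 h), zero_mul]
      unfold YY
      rw [if_neg, neg_zero]
      rintro ⟨h1, h2⟩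
      exact h2 (h1.trans h)
    · rw [if_pos ⟨rfl, h⟩]
      ring
  · intro w _ hw
    rw [YY_mul hF hτ, if_neg (fun h => hw h.1.symm), zero_mul]
  · intro h
    exact absurd (mem_univ _) h

theorem NN_apply (hF : Fr cls b inv jj X) (hτ : ∀ x, τ (τ x) = x) (x y : R) :
    (1 + YY jj τ + YY jj τ * YY jj τ) x y =
      if y = τ x then (if τ x = x then 1 else Complex.I * rho jj τ x) else 0 := by
  rw [Matrix.add_apply, Matrix.add_apply, YY_mul hF hτ]
  by_cases h : τ x = x
  · rw [if_neg (fun h2 => h2.2 h), h, if_pos rfl, add_zero]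
    unfold YY
    rw [if_neg (fun h2 => h2.2 (h2.1.trans h)), add_zero, Matrix.one_apply]
    by_cases h2 : x = y
    · rw [if_pos h2, if_pos h2.symm]
    · rw [if_neg h2, if_neg (Ne.symm h2)]
  · rw [if_neg h]
    by_cases h2 : x = y
    · subst h2
      rw [if_pos ⟨rfl, h⟩, Matrix.one_apply_eq, if_neg (Ne.symm h)]
      unfold YY
      rw [if_neg (fun h2 => h2.2 rfl)]
      ring
    · rw [if_neg (fun h3 => h2 h3.1), Matrix.one_apply_ne h2, zero_add, add_zero]
      unfold YY
      by_cases h3 : y = τ x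
      · rw [if_pos ⟨h3, Ne.symm h2⟩, if_pos h3]
      · rw [if_neg (fun h4 => h3 h4.1), if_neg h3]

theorem coef_ne (hF : Fr cls b inv jj X) (x : R) :
    (if τ x = x then 1 else Complex.I * rho jj τ x) ≠ 0 := by
  split_ifs
  · exact one_ne_zero
  · refine mul_ne_zero Complex.I_ne_zero fun h => ?_
    have := rho_sq (τ := τ) hF x
    rw [h, mul_zero] at this
    exact zero_ne_one this

theorem Ts_N (hF : Fr cls b inv jj X) (hτ : ∀ x, τ (τ x) = x) (f : (κ → R) → ℂ) (z : κ → R) :
    Ts (fun _ => 1 + YY jj τ + YY jj τ * YY jj τ) f z =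
      (∏ k, if τ (τ (z k)) = τ (z k) then 1 else Complex.I * rho jj τ (τ (z k))) *
        f (fun k => τ (z k)) := by
  unfold Ts
  rw [sum_eq_single (fun k => τ (z k))]
  · congr 1
    refine prod_congr rfl fun k _ => ?_
    show (1 + YY jj τ + YY jj τ * YY jj τ) (τ (z k)) (z k) = _
    rw [NN_apply hF hτ, if_pos (hτ (z k)).symm]
  · intro w _ hw
    obtain ⟨k, hk⟩ : ∃ k, w k ≠ τ (z k) := by
      by_contra h
      push Not at h
      exact hw (funext h)
    rw [prod_eq_zero (mem_univ k), zero_mul]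
    show (1 + YY jj τ + YY jj τ * YY jj τ) (w k) (z k) = 0
    rw [NN_apply hF hτ, if_neg]
    intro h
    exact hk (by rw [h, hτ])
  · intro h
    exact absurd (mem_univ _) h

end swap

/-- The weights of a stable space are permuted by the involutions. -/
theorem t_SWAP : S_SWAP := by
  intro κ R P _ _ _ _ _ cls b inv jj X h T hF hH U hU v hv hv0 c hc τ hτ hτi hτc
  refine ⟨Ts (fun _ => 1 + YY jj τ + YY jj τ * YY jj τ) v, ?_, ?_, ?_⟩
  · exact Ts_mem (YY jj τ) (YY_cube hF hτ) U (fun u hu => hU _ (YY_mem hF hτ hτi hτc) u hu) v hv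
  · obtain ⟨z, hz⟩ : ∃ z, v z ≠ 0 := by
      by_contra h'
      push Not at h'
      exact hv0 (funext h')
    intro h0
    have h1 := congrFun h0 (fun k => τ (z k))
    rw [Ts_N hF hτ, Pi.zero_apply] at h1
    rcases mul_eq_zero.1 h1 with h2 | h2
    · obtain ⟨k, -, hk⟩ := prod_eq_zero_iff.1 h2
      exact coef_ne hF _ hk
    · simp only [hτ] at h2
      exact hz h2
  · intro z hz d hd
    rw [Ts_N hF hτ] at hz
    have hz' : v (fun k => τ (z k)) ≠ 0 := fun h' => hz (by rw [h', mul_zero])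
    have hd' : Dg cls inv T (fun x => d (τ x)) := by
      refine ⟨fun x => by show d (τ (inv x)) = -d (τ x); rw [hτi, hd.1], ?_⟩
      have h1 : (fun p => ∑ x ∈ univ.filter (fun x => cls x = p), d (τ x)) =
          fun p => ∑ x ∈ univ.filter (fun x => cls x = p), d x := by
        funext p
        refine sum_bij' (fun x _ => τ x) (fun x _ => τ x) ?_ ?_ ?_ ?_ ?_
        · intro x hx
          rw [mem_filter] at hx ⊢
          exact ⟨mem_univ _, by rw [hτc, hx.2]⟩
        · intro x hx
          rw [mem_filter] at hx ⊢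
          exact ⟨mem_univ _, by rw [hτc, hx.2]⟩
        · intro x _
          exact hτ x
        · intro x _
          exact hτ x
        · intro x _
          rfl
      rw [h1]
      exact hd.2
    have h1 := hc.wts _ hz' _ hd'
    have h2 : wt (fun x => d (τ x)) (fun k => τ (z k)) = wt d z := by
      unfold wt
      simp only [hτ]
    rw [h2] at h1
    rw [h1]
    refine sum_bij' (fun x _ => τ x) (fun x _ => τ x) (fun _ _ => mem_univ _)
      (fun _ _ => mem_univ _) (fun x _ => hτ x) (fun x _ => hτ x) fun x _ => ?_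
    rw [hτ]

end

end Pool.Agent.N76.GHC
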